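import Pool.Agent.Helper907.AA.Defs

/-!
# Local equivalence of sliced diagrams

Tools for moving pieces around in sliced link diagrams.
-/

set_option autoImplicit false

namespace Pool.Agent.V11207

open Pool.Agent.Helper907.AA
open Pool.Agent.Helper907.AA.Piece hiding width

theorem width_append (u v : Word) (n : ℕ) : width (u ++ v) n = (width u n).bind (width v) := by
  induction u generalizing n with
  | nil => simp [width]
  | cons p u ih =>
    simp only [List.cons_append, width]
    cases h : p.width n with
    | none => simp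
    | some k => simp [ih]

/-- The diagrams `u` and `v`, both with `n` endpoints at the top and `m` at the bottom, can be
replaced by each other in every closed diagram. -/
structure Loc (n m : ℕ) (u v : Word) : Prop where
  left : width u n = some m
  right : width v n = some m
  iso : ∀ a b : Word, width a 0 = some n → width b m = some 0 →
    Isotopic (a ++ u ++ b) (a ++ v ++ b)

namespace Loc

theorem refl {n m : ℕ} {u : Word} (h : width u n = some m) : Loc n m u u :=
  ⟨h, h, fun _ _ _ _ => Relation.EqvGen.refl _⟩

theorem symm {n m : ℕ} {u v : Word} (h : Loc n m u v) : Loc n m v u :=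
  ⟨h.right, h.left, fun a b ha hb => Relation.EqvGen.symm _ _ (h.iso a b ha hb)⟩

theorem trans {n m : ℕ} {u v w : Word} (h : Loc n m u v) (h' : Loc n m v w) : Loc n m u w :=
  ⟨h.left, h'.right, fun a b ha hb => Relation.EqvGen.trans _ _ _ (h.iso a b ha hb)
    (h'.iso a b ha hb)⟩

theorem append {n m k : ℕ} {u v u' v' : Word} (h : Loc n m u v) (h' : Loc m k u' v') :
    Loc n k (u ++ u') (v ++ v') := by
  refine ⟨by rw [width_append, h.left]; exact h'.left,
    by rw [width_append, h.right]; exact h'.right, fun a b ha hb => ?_⟩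
  have h1 := h.iso a (u' ++ b) ha (by rw [width_append, h'.left]; exact hb)
  have h2 := h'.iso (a ++ v) b (by rw [width_append, ha]; exact h.right) hb
  have e1 : a ++ (u ++ u') ++ b = a ++ u ++ (u' ++ b) := by simp
  have e2 : a ++ (v ++ v') ++ b = a ++ v ++ v' ++ b := by simp
  have e3 : a ++ v ++ (u' ++ b) = a ++ v ++ u' ++ b := by simp
  rw [e1, e2]
  rw [e3] at h1
  exact Relation.EqvGen.trans _ _ _ h1 h2

theorem cons {n m k : ℕ} {p : Piece} {u v : Word} (hp : p.width n = some m)
    (h : Loc m k u v) : Loc n k (p :: u) (p :: v) := by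
  have : Loc n m [p] [p] := refl (by simp [width, hp])
  exact this.append h

theorem of_move {n m : ℕ} {l r : Word} (h : LocalMove l r ∨ FirstMove l r)
    (hl : width l n = some m) (hr : width r n = some m) : Loc n m l r := by
  refine ⟨hl, hr, fun a b ha hb => Relation.EqvGen.rel _ _ (Step.mk a l r b h ?_ ?_)⟩
  · unfold Closed
    rw [width_append, width_append, ha]
    simp only [Option.bind_some, hl, hb]
  · unfold Closed
    rw [width_append, width_append, ha]
    simp only [Option.bind_some, hr, hb]

end Loc

/-- The crossing at position `i` (positive if `s` is true). -/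
def cr (s : Bool) (i : ℕ) : Piece := if s then pos i else neg i

theorem cr_width (s : Bool) {i n : ℕ} (h : i + 2 ≤ n) : (cr s i).width n = some n := by
  cases s <;> simp [cr, Piece.width, h]

theorem cr_index (s : Bool) (i : ℕ) : (cr s i).index = i := by cases s <;> rfl

theorem cr_ins (s : Bool) (i : ℕ) : (cr s i).ins = 2 := by cases s <;> rfl

theorem cr_outs (s : Bool) (i : ℕ) : (cr s i).outs = 2 := by cases s <;> rfl

theorem cr_moved (s : Bool) (i j : ℕ) : (cr s i).moved j = cr s j := by cases s <;> rfl

theorem loc_second (s : Bool) {i n : ℕ} (h : i + 2 ≤ n) : Loc n n [cr s i, cr (!s) i] [] := by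
  cases s
  · exact Loc.of_move (Or.inl (LocalMove.second₂ i)) (by simp [cr, width, Piece.width, h]) rfl
  · exact Loc.of_move (Or.inl (LocalMove.second₁ i)) (by simp [cr, width, Piece.width, h]) rfl

theorem loc_third_pos {i n : ℕ} (h : i + 3 ≤ n) :
    Loc n n [pos i, pos (i + 1), pos i] [pos (i + 1), pos i, pos (i + 1)] :=
  Loc.of_move (Or.inl (LocalMove.third i))
    (by simp [width, Piece.width, show i + 2 ≤ n by omega, show i + 1 + 2 ≤ n by omega])
    (by simp [width, Piece.width, show i + 2 ≤ n by omega, show i + 1 + 2 ≤ n by omega])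

theorem loc_third (s : Bool) {i n : ℕ} (h : i + 3 ≤ n) :
    Loc n n [cr s i, cr s (i + 1), cr s i] [cr s (i + 1), cr s i, cr s (i + 1)] := by
  cases s
  swap
  · exact loc_third_pos h
  have w1 : ∀ p ∈ [pos i, pos (i + 1), neg i, neg (i + 1)], p.width n = some n := by
    intro p hp
    simp only [List.mem_cons, List.not_mem_nil, or_false] at hp
    rcases hp with rfl | rfl | rfl | rfl <;> simp [Piece.width] <;> omega
  have wW : ∀ w : Word, (∀ p ∈ w, p.width n = some n) → width w n = some n := by
    intro w hw
    induction w with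
    | nil => rfl
    | cons p w ih =>
      simp only [width]
      rw [hw p (by simp)]
      exact ih fun q hq => hw q (by simp [hq])
  have s1 : Loc n n [pos i, neg i] [] := loc_second true (by omega)
  have s2 : Loc n n [neg i, pos i] [] := loc_second false (by omega)
  have s3 : Loc n n [pos (i + 1), neg (i + 1)] [] := loc_second true (by omega)
  have s4 : Loc n n [neg (i + 1), pos (i + 1)] [] := loc_second false (by omega)
  have rf : ∀ w : Word, (∀ p ∈ w, p.width n = some n) → Loc n n w w := fun w hw =>
    Loc.refl (wW w hw)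
  -- A = n_i n_{i+1} n_i, B = n_{i+1} n_i n_{i+1}
  -- B ~ (A A⁻¹) B
  have hA : Loc n n ([neg i, neg (i + 1), neg i] ++ [pos i, pos (i + 1), pos i]) [] := by
    have a1 : Loc n n ([neg i, neg (i + 1)] ++ [neg i, pos i] ++ [pos (i + 1), pos i])
        ([neg i, neg (i + 1)] ++ [] ++ [pos (i + 1), pos i]) :=
      ((rf _ (by intro p hp; apply w1; simp at hp ⊢; tauto)).append s2).append
        (rf _ (by intro p hp; apply w1; simp at hp ⊢; tauto))
    have a2 : Loc n n ([neg i] ++ [neg (i + 1), pos (i + 1)] ++ [pos i])
        ([neg i] ++ [] ++ [pos i]) :=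
      ((rf _ (by intro p hp; apply w1; simp at hp ⊢; tauto)).append s4).append
        (rf _ (by intro p hp; apply w1; simp at hp ⊢; tauto))
    exact (a1.trans a2).trans s2
  have hB : Loc n n ([pos (i + 1), pos i, pos (i + 1)] ++ [neg (i + 1), neg i, neg (i + 1)]) [] := by
    have a1 : Loc n n ([pos (i + 1), pos i] ++ [pos (i + 1), neg (i + 1)] ++ [neg i, neg (i + 1)])
        ([pos (i + 1), pos i] ++ [] ++ [neg i, neg (i + 1)]) :=
      ((rf _ (by intro p hp; apply w1; simp at hp ⊢; tauto)).append s3).append
        (rf _ (by intro p hp; apply w1; simp at hp ⊢; tauto))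
    have a2 : Loc n n ([pos (i + 1)] ++ [pos i, neg i] ++ [neg (i + 1)])
        ([pos (i + 1)] ++ [] ++ [neg (i + 1)]) :=
      ((rf _ (by intro p hp; apply w1; simp at hp ⊢; tauto)).append s1).append
        (rf _ (by intro p hp; apply w1; simp at hp ⊢; tauto))
    exact (a1.trans a2).trans s3
  have hT := loc_third_pos (i := i) (n := n) h
  have c1 : Loc n n ([neg i, neg (i + 1), neg i] ++ [pos i, pos (i + 1), pos i] ++
      [neg (i + 1), neg i, neg (i + 1)]) ([] ++ [neg (i + 1), neg i, neg (i + 1)]) :=
    hA.append (rf _ (by intro p hp; apply w1; simp at hp ⊢; tauto))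
  have c2 : Loc n n ([neg i, neg (i + 1), neg i] ++ [pos i, pos (i + 1), pos i] ++
      [neg (i + 1), neg i, neg (i + 1)]) ([neg i, neg (i + 1), neg i] ++
      [pos (i + 1), pos i, pos (i + 1)] ++ [neg (i + 1), neg i, neg (i + 1)]) :=
    ((rf _ (by intro p hp; apply w1; simp at hp ⊢; tauto)).append hT).append
      (rf _ (by intro p hp; apply w1; simp at hp ⊢; tauto))
  have c3 : Loc n n ([neg i, neg (i + 1), neg i] ++
      ([pos (i + 1), pos i, pos (i + 1)] ++ [neg (i + 1), neg i, neg (i + 1)]))
      ([neg i, neg (i + 1), neg i] ++ []) :=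
    (rf _ (by intro p hp; apply w1; simp at hp ⊢; tauto)).append hB
  exact (c3.symm.trans (c2.symm)).trans c1

/-- Two crossings of the strands far apart commute. -/
theorem loc_comm (s t : Bool) {i j n : ℕ} (h : i + 2 ≤ j) (hj : j + 2 ≤ n) :
    Loc n n [cr s i, cr t j] [cr t j, cr s i] := by
  have hx := LocalMove.exchange (cr s i) (cr t j) (by rw [cr_index, cr_ins, cr_index]; exact h)
  rw [cr_moved, cr_index, cr_outs, cr_ins, Nat.add_sub_cancel] at hx
  exact Loc.of_move (Or.inl hx)
    (by simp [width, cr_width s (show i + 2 ≤ n by omega), cr_width t hj])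
    (by simp [width, cr_width s (show i + 2 ≤ n by omega), cr_width t hj])

theorem replicate_width (s : Bool) {i n : ℕ} (h : i + 2 ≤ n) (k : ℕ) :
    width (List.replicate k (cr s i)) n = some n := by
  induction k with
  | zero => rfl
  | succ k ih => simp [List.replicate_succ, width, cr_width s h, ih]

/-- `σ_{i+1}^k σ_i σ_{i+1} = σ_i σ_{i+1} σ_i^k`. -/
theorem loc_twist (s : Bool) {i n : ℕ} (h : i + 3 ≤ n) (k : ℕ) :
    Loc n n (List.replicate k (cr s (i + 1)) ++ [cr s i, cr s (i + 1)])
      ([cr s i, cr s (i + 1)] ++ List.replicate k (cr s i)) := by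
  induction k with
  | zero =>
    simp only [List.replicate_zero, List.nil_append, List.append_nil]
    exact Loc.refl (by simp [width, cr_width s (show i + 2 ≤ n by omega),
      cr_width s (show i + 1 + 2 ≤ n by omega)])
  | succ k ih =>
    have e1 : List.replicate (k + 1) (cr s (i + 1)) ++ [cr s i, cr s (i + 1)] =
        cr s (i + 1) :: (List.replicate k (cr s (i + 1)) ++ [cr s i, cr s (i + 1)]) := by
      simp [List.replicate_succ]
    have h1 := Loc.cons (cr_width s (show i + 1 + 2 ≤ n by omega)) ih
    have h2 : Loc n n ([cr s (i + 1), cr s i, cr s (i + 1)] ++ List.replicate k (cr s i))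
        ([cr s i, cr s (i + 1), cr s i] ++ List.replicate k (cr s i)) :=
      (loc_third s h).symm.append (Loc.refl (replicate_width s (by omega) k))
    have e2 : [cr s i, cr s (i + 1)] ++ List.replicate (k + 1) (cr s i) =
        [cr s i, cr s (i + 1), cr s i] ++ List.replicate k (cr s i) := by
      simp [List.replicate_succ]
    rw [e1, e2]
    exact h1.trans h2

/-- The flype at a corner: a non-alternating rational tangle loses a crossing. -/
theorem loc_corner (s : Bool) {n : ℕ} (k l : ℕ) :
    Loc (n + 1) (n + 3)
      ([birth 0] ++ List.replicate (k + 1) (cr s 1) ++ List.replicate (l + 1) (cr s 0))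
      ([birth 1] ++ List.replicate k (cr s 0) ++ [cr (!s) 1] ++ List.replicate l (cr s 0)) := by
  have wb : width [birth 0] (n + 1) = some (n + 3) := by simp [cr, width, Piece.width]
  have wb1 : width [birth 1] (n + 1) = some (n + 3) := by simp [cr, width, Piece.width]
  have w0 : ∀ t : Bool, (cr t 0).width (n + 3) = some (n + 3) := fun t => cr_width t (by omega)
  have w1 : ∀ t : Bool, (cr t 1).width (n + 3) = some (n + 3) := fun t => cr_width t (by omega)
  have r0 : ∀ (t : Bool) (j : ℕ), width (List.replicate j (cr t 0)) (n + 3) = some (n + 3) :=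
    fun t j => replicate_width t (by omega) j
  have r1 : ∀ (t : Bool) (j : ℕ), width (List.replicate j (cr t 1)) (n + 3) = some (n + 3) :=
    fun t j => replicate_width t (by omega) j
  -- insert a cancelling pair
  have a1 : Loc (n + 1) (n + 3)
      ([birth 0] ++ List.replicate (k + 1) (cr s 1) ++ [cr s 0] ++ [] ++ List.replicate l (cr s 0))
      ([birth 0] ++ List.replicate (k + 1) (cr s 1) ++ [cr s 0] ++ [cr s 1, cr (!s) 1] ++
        List.replicate l (cr s 0)) :=
    ((((Loc.refl wb).append (Loc.refl (r1 s (k + 1)))).append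
      (Loc.refl (by simp [width, w0]))).append (loc_second s (by omega)).symm).append
        (Loc.refl (r0 s l))
  have a2 : Loc (n + 1) (n + 3)
      ([birth 0] ++ (List.replicate (k + 1) (cr s 1) ++ [cr s 0, cr s 1]) ++ [cr (!s) 1] ++
        List.replicate l (cr s 0))
      ([birth 0] ++ ([cr s 0, cr s 1] ++ List.replicate (k + 1) (cr s 0)) ++ [cr (!s) 1] ++
        List.replicate l (cr s 0)) :=
    (((Loc.refl wb).append (loc_twist s (by omega) (k + 1))).append
      (Loc.refl (by simp [width, w1]))).append (Loc.refl (r0 s l))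
  have hf : Loc (n + 1) (n + 3) [birth 0, cr s 0] [birth 0] := by
    cases s
    · exact Loc.of_move (Or.inr (FirstMove.birthNeg 0)) (by simp [cr, width, Piece.width])
        (by simp [cr, width, Piece.width])
    · exact Loc.of_move (Or.inr (FirstMove.birthPos 0)) (by simp [cr, width, Piece.width])
        (by simp [cr, width, Piece.width])
  have hs : Loc (n + 1) (n + 3) [birth 0, cr s 1] [birth 1, cr (!s) 0] := by
    cases s
    · exact Loc.of_move (Or.inl (LocalMove.slideBirth₂ 0)) (by simp [cr, width, Piece.width])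
        (by simp [cr, width, Piece.width])
    · exact Loc.of_move (Or.inl (LocalMove.slideBirth₁ 0)) (by simp [cr, width, Piece.width])
        (by simp [cr, width, Piece.width])
  have a3 : Loc (n + 1) (n + 3)
      ([birth 0, cr s 0] ++ ([cr s 1] ++ List.replicate (k + 1) (cr s 0) ++ [cr (!s) 1] ++
        List.replicate l (cr s 0)))
      ([birth 0] ++ ([cr s 1] ++ List.replicate (k + 1) (cr s 0) ++ [cr (!s) 1] ++
        List.replicate l (cr s 0))) :=
    hf.append ((((Loc.refl (by simp [width, w1])).append (Loc.refl (r0 s (k + 1)))).append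
      (Loc.refl (by simp [width, w1]))).append (Loc.refl (r0 s l)))
  have a4 : Loc (n + 1) (n + 3)
      ([birth 0, cr s 1] ++ (List.replicate (k + 1) (cr s 0) ++ [cr (!s) 1] ++
        List.replicate l (cr s 0)))
      ([birth 1, cr (!s) 0] ++ (List.replicate (k + 1) (cr s 0) ++ [cr (!s) 1] ++
        List.replicate l (cr s 0))) :=
    hs.append (((Loc.refl (r0 s (k + 1))).append
      (Loc.refl (by simp [width, w1]))).append (Loc.refl (r0 s l)))
  have h2 : Loc (n + 3) (n + 3) [cr (!s) 0, cr s 0] [] := by
    have := loc_second (!s) (i := 0) (n := n + 3) (by omega)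
    simpa using this
  have a5 : Loc (n + 1) (n + 3)
      ([birth 1] ++ [cr (!s) 0, cr s 0] ++ (List.replicate k (cr s 0) ++ [cr (!s) 1] ++
        List.replicate l (cr s 0)))
      ([birth 1] ++ [] ++ (List.replicate k (cr s 0) ++ [cr (!s) 1] ++
        List.replicate l (cr s 0))) :=
    ((Loc.refl wb1).append h2).append (((Loc.refl (r0 s k)).append
      (Loc.refl (by simp [width, w1]))).append (Loc.refl (r0 s l)))
  have e0 : [birth 0] ++ List.replicate (k + 1) (cr s 1) ++ List.replicate (l + 1) (cr s 0) =
      [birth 0] ++ List.replicate (k + 1) (cr s 1) ++ [cr s 0] ++ [] ++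
        List.replicate l (cr s 0) := by simp [List.replicate_succ]
  have e1 : [birth 0] ++ List.replicate (k + 1) (cr s 1) ++ [cr s 0] ++ [cr s 1, cr (!s) 1] ++
        List.replicate l (cr s 0) =
      [birth 0] ++ (List.replicate (k + 1) (cr s 1) ++ [cr s 0, cr s 1]) ++ [cr (!s) 1] ++
        List.replicate l (cr s 0) := by simp
  have e2 : [birth 0] ++ ([cr s 0, cr s 1] ++ List.replicate (k + 1) (cr s 0)) ++ [cr (!s) 1] ++
        List.replicate l (cr s 0) =
      [birth 0, cr s 0] ++ ([cr s 1] ++ List.replicate (k + 1) (cr s 0) ++ [cr (!s) 1] ++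
        List.replicate l (cr s 0)) := by simp
  have e3 : [birth 0] ++ ([cr s 1] ++ List.replicate (k + 1) (cr s 0) ++ [cr (!s) 1] ++
        List.replicate l (cr s 0)) =
      [birth 0, cr s 1] ++ (List.replicate (k + 1) (cr s 0) ++ [cr (!s) 1] ++
        List.replicate l (cr s 0)) := by simp
  have e4 : [birth 1, cr (!s) 0] ++ (List.replicate (k + 1) (cr s 0) ++ [cr (!s) 1] ++
        List.replicate l (cr s 0)) =
      [birth 1] ++ [cr (!s) 0, cr s 0] ++ (List.replicate k (cr s 0) ++ [cr (!s) 1] ++
        List.replicate l (cr s 0)) := by simp [List.replicate_succ]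
  have e5 : [birth 1] ++ [] ++ (List.replicate k (cr s 0) ++ [cr (!s) 1] ++
        List.replicate l (cr s 0)) =
      [birth 1] ++ List.replicate k (cr s 0) ++ [cr (!s) 1] ++ List.replicate l (cr s 0) := by
    simp
  rw [e1] at a1
  rw [e2] at a2
  rw [e3] at a3
  rw [e4] at a4
  rw [e5] at a5
  rw [e0]
  exact (((a1.trans a2).trans a3).trans a4).trans a5

end Pool.Agent.V11207
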