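import Pool.Agent.W612.WSL.Defs

/-!
# A chain of moves

The lists `L0, L1, ..., L32` are Gauss diagrams on two strands (first the ends on the strand `0`, then
the ends on the strand `1`). Consecutive ones differ by one Reidemeister move or one self-crossing
change. `L0` is the commutator of `a c` and `c a` and the last one is the empty diagram, where `a` is
the positive crossing with strand `0` over strand `1` and `c` the positive crossing with strand `1` over
strand `0`. -/

set_option autoImplicit false
set_option maxRecDepth 4000

namespace Pool.Agent.V11207.SC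

open Pool.Agent.W612.WSL

abbrev a0p : Arrow 2 := ⟨0, 0, 1, true⟩
abbrev a1p : Arrow 2 := ⟨1, 1, 0, true⟩
abbrev a2p : Arrow 2 := ⟨2, 1, 0, true⟩
abbrev a3p : Arrow 2 := ⟨3, 0, 1, true⟩
abbrev a4n : Arrow 2 := ⟨4, 1, 0, false⟩
abbrev a5n : Arrow 2 := ⟨5, 0, 1, false⟩
abbrev a6n : Arrow 2 := ⟨6, 0, 1, false⟩
abbrev a7n : Arrow 2 := ⟨7, 1, 0, false⟩
abbrev a8p : Arrow 2 := ⟨8, 1, 1, true⟩
abbrev a9n : Arrow 2 := ⟨9, 1, 1, false⟩
abbrev a10p : Arrow 2 := ⟨10, 1, 1, true⟩
abbrev a11n : Arrow 2 := ⟨11, 1, 1, false⟩
abbrev a11p : Arrow 2 := ⟨11, 1, 1, true⟩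
abbrev a12n : Arrow 2 := ⟨12, 1, 1, false⟩
abbrev a13p : Arrow 2 := ⟨13, 1, 1, true⟩
abbrev a14n : Arrow 2 := ⟨14, 1, 1, false⟩
abbrev a14p : Arrow 2 := ⟨14, 1, 1, true⟩
abbrev a15n : Arrow 2 := ⟨15, 1, 1, false⟩
abbrev a16p : Arrow 2 := ⟨16, 0, 0, true⟩
abbrev a17n : Arrow 2 := ⟨17, 0, 0, false⟩
abbrev a18p : Arrow 2 := ⟨18, 0, 0, true⟩
abbrev a19n : Arrow 2 := ⟨19, 0, 0, false⟩
abbrev a19p : Arrow 2 := ⟨19, 0, 0, true⟩
abbrev a20n : Arrow 2 := ⟨20, 0, 0, false⟩
abbrev a21p : Arrow 2 := ⟨21, 0, 0, true⟩
abbrev a22n : Arrow 2 := ⟨22, 0, 0, false⟩
abbrev a22p : Arrow 2 := ⟨22, 0, 0, true⟩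
abbrev a23n : Arrow 2 := ⟨23, 0, 0, false⟩

/-- Gauss diagram number 0. -/
def L0 : List (End 2) :=
  [(a0p, true), (a1p, false), (a2p, false), (a3p, true), (a4n, false), (a5n, true), (a6n, true),
  (a7n, false), (a0p, false), (a1p, true), (a2p, true), (a3p, false), (a4n, true), (a5n, false),
  (a6n, false), (a7n, true)]

/-- Gauss diagram number 1. -/
def L1 : List (End 2) :=
  [(a0p, true), (a1p, false), (a2p, false), (a3p, true), (a4n, false), (a5n, true), (a6n, true),
  (a7n, false), (a0p, false), (a8p, false), (a9n, false), (a1p, true), (a8p, true), (a9n, true),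
  (a2p, true), (a3p, false), (a4n, true), (a5n, false), (a6n, false), (a7n, true)]

/-- Gauss diagram number 2. -/
def L2 : List (End 2) :=
  [(a0p, true), (a2p, false), (a1p, false), (a3p, true), (a4n, false), (a5n, true), (a6n, true),
  (a7n, false), (a0p, false), (a8p, false), (a1p, true), (a9n, false), (a8p, true), (a2p, true),
  (a9n, true), (a3p, false), (a4n, true), (a5n, false), (a6n, false), (a7n, true)]

/-- Gauss diagram number 3. -/
def L3 : List (End 2) :=
  [(a0p, true), (a2p, false), (a1p, false), (a3p, true), (a4n, false), (a5n, true), (a6n, true),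
  (a7n, false), (a0p, false), (a8p, false), (a10p, true), (a11n, true), (a1p, true), (a9n,
  false), (a8p, true), (a2p, true), (a9n, true), (a3p, false), (a11n, false), (a10p, false),
  (a4n, true), (a5n, false), (a6n, false), (a7n, true)]

/-- Gauss diagram number 4. -/
def L4 : List (End 2) :=
  [(a0p, true), (a2p, false), (a3p, true), (a1p, false), (a4n, false), (a5n, true), (a6n, true),
  (a7n, false), (a0p, false), (a8p, false), (a10p, true), (a1p, true), (a11n, true), (a9n,
  false), (a8p, true), (a2p, true), (a9n, true), (a11n, false), (a3p, false), (a10p, false),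
  (a4n, true), (a5n, false), (a6n, false), (a7n, true)]

/-- Gauss diagram number 5. -/
def L5 : List (End 2) :=
  [(a0p, true), (a2p, false), (a3p, true), (a1p, false), (a4n, false), (a5n, true), (a6n, true),
  (a7n, false), (a0p, false), (a13p, false), (a12n, false), (a8p, false), (a10p, true), (a1p,
  true), (a11n, true), (a9n, false), (a8p, true), (a12n, true), (a13p, true), (a2p, true), (a9n,
  true), (a11n, false), (a3p, false), (a10p, false), (a4n, true), (a5n, false), (a6n, false),
  (a7n, true)]

/-- Gauss diagram number 6. -/
def L6 : List (End 2) :=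
  [(a2p, false), (a0p, true), (a3p, true), (a1p, false), (a4n, false), (a5n, true), (a6n, true),
  (a7n, false), (a13p, false), (a0p, false), (a12n, false), (a8p, false), (a10p, true), (a1p,
  true), (a11n, true), (a9n, false), (a8p, true), (a12n, true), (a2p, true), (a13p, true), (a9n,
  true), (a11n, false), (a3p, false), (a10p, false), (a4n, true), (a5n, false), (a6n, false),
  (a7n, true)]

/-- Gauss diagram number 7. -/
def L7 : List (End 2) :=
  [(a2p, false), (a0p, true), (a3p, true), (a1p, false), (a4n, false), (a5n, true), (a6n, true),
  (a7n, false), (a13p, false), (a0p, false), (a15n, false), (a14p, false), (a12n, false), (a8p,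
  false), (a10p, true), (a1p, true), (a11n, true), (a9n, false), (a8p, true), (a12n, true), (a2p,
  true), (a13p, true), (a9n, true), (a11n, false), (a3p, false), (a15n, true), (a14p, true),
  (a10p, false), (a4n, true), (a5n, false), (a6n, false), (a7n, true)]

/-- Gauss diagram number 8. -/
def L8 : List (End 2) :=
  [(a2p, false), (a3p, true), (a0p, true), (a1p, false), (a4n, false), (a5n, true), (a6n, true),
  (a7n, false), (a13p, false), (a15n, false), (a0p, false), (a14p, false), (a12n, false), (a8p,
  false), (a10p, true), (a1p, true), (a11n, true), (a9n, false), (a8p, true), (a12n, true), (a2p,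
  true), (a13p, true), (a9n, true), (a11n, false), (a15n, true), (a3p, false), (a14p, true),
  (a10p, false), (a4n, true), (a5n, false), (a6n, false), (a7n, true)]

/-- Gauss diagram number 9. -/
def L9 : List (End 2) :=
  [(a2p, false), (a3p, true), (a0p, true), (a1p, false), (a4n, false), (a5n, true), (a6n, true),
  (a7n, false), (a13p, false), (a15n, false), (a0p, false), (a14n, true), (a12n, false), (a8p,
  false), (a10p, true), (a1p, true), (a11n, true), (a9n, false), (a8p, true), (a12n, true), (a2p,
  true), (a13p, true), (a9n, true), (a11n, false), (a15n, true), (a3p, false), (a14n, false),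
  (a10p, false), (a4n, true), (a5n, false), (a6n, false), (a7n, true)]

/-- Gauss diagram number 10. -/
def L10 : List (End 2) :=
  [(a2p, false), (a3p, true), (a0p, true), (a1p, false), (a4n, false), (a5n, true), (a6n, true),
  (a7n, false), (a13p, false), (a15n, false), (a0p, false), (a14n, true), (a12n, false), (a8p,
  false), (a10p, true), (a1p, true), (a11p, false), (a9n, false), (a8p, true), (a12n, true),
  (a2p, true), (a13p, true), (a9n, true), (a11p, true), (a15n, true), (a3p, false), (a14n,
  false), (a10p, false), (a4n, true), (a5n, false), (a6n, false), (a7n, true)]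

/-- Gauss diagram number 11. -/
def L11 : List (End 2) :=
  [(a2p, false), (a3p, true), (a0p, true), (a1p, false), (a4n, false), (a5n, true), (a6n, true),
  (a7n, false), (a13p, false), (a15n, false), (a0p, false), (a14n, true), (a10p, true), (a1p,
  true), (a11p, false), (a9n, false), (a2p, true), (a13p, true), (a9n, true), (a11p, true),
  (a15n, true), (a3p, false), (a14n, false), (a10p, false), (a4n, true), (a5n, false), (a6n,
  false), (a7n, true)]

/-- Gauss diagram number 12. -/
def L12 : List (End 2) :=
  [(a2p, false), (a3p, true), (a0p, true), (a1p, false), (a4n, false), (a5n, true), (a6n, true),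
  (a7n, false), (a13p, false), (a15n, false), (a0p, false), (a1p, true), (a11p, false), (a9n,
  false), (a2p, true), (a13p, true), (a9n, true), (a11p, true), (a15n, true), (a3p, false), (a4n,
  true), (a5n, false), (a6n, false), (a7n, true)]

/-- Gauss diagram number 13. -/
def L13 : List (End 2) :=
  [(a2p, false), (a3p, true), (a0p, true), (a1p, false), (a4n, false), (a5n, true), (a6n, true),
  (a7n, false), (a13p, false), (a15n, false), (a0p, false), (a1p, true), (a2p, true), (a13p,
  true), (a15n, true), (a3p, false), (a4n, true), (a5n, false), (a6n, false), (a7n, true)]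

/-- Gauss diagram number 14. -/
def L14 : List (End 2) :=
  [(a2p, false), (a3p, true), (a0p, true), (a1p, false), (a4n, false), (a5n, true), (a6n, true),
  (a7n, false), (a0p, false), (a1p, true), (a2p, true), (a3p, false), (a4n, true), (a5n, false),
  (a6n, false), (a7n, true)]

/-- Gauss diagram number 15. -/
def L15 : List (End 2) :=
  [(a21p, false), (a23n, false), (a2p, false), (a3p, true), (a0p, true), (a21p, true), (a23n,
  true), (a1p, false), (a4n, false), (a5n, true), (a6n, true), (a7n, false), (a0p, false), (a1p,
  true), (a2p, true), (a3p, false), (a4n, true), (a5n, false), (a6n, false), (a7n, true)]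

/-- Gauss diagram number 16. -/
def L16 : List (End 2) :=
  [(a21p, false), (a23n, false), (a2p, false), (a3p, true), (a19p, false), (a17n, false), (a0p,
  true), (a21p, true), (a17n, true), (a19p, true), (a23n, true), (a1p, false), (a4n, false),
  (a5n, true), (a6n, true), (a7n, false), (a0p, false), (a1p, true), (a2p, true), (a3p, false),
  (a4n, true), (a5n, false), (a6n, false), (a7n, true)]

/-- Gauss diagram number 17. -/
def L17 : List (End 2) :=
  [(a21p, false), (a23n, false), (a2p, false), (a22n, true), (a18p, true), (a3p, true), (a19p,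
  false), (a17n, false), (a0p, true), (a21p, true), (a17n, true), (a19p, true), (a23n, true),
  (a1p, false), (a22n, false), (a18p, false), (a4n, false), (a5n, true), (a6n, true), (a7n,
  false), (a0p, false), (a1p, true), (a2p, true), (a3p, false), (a4n, true), (a5n, false), (a6n,
  false), (a7n, true)]

/-- Gauss diagram number 18. -/
def L18 : List (End 2) :=
  [(a21p, false), (a23n, false), (a2p, false), (a22n, true), (a20n, false), (a16p, false), (a18p,
  true), (a3p, true), (a19p, false), (a17n, false), (a16p, true), (a20n, true), (a0p, true),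
  (a21p, true), (a17n, true), (a19p, true), (a23n, true), (a1p, false), (a22n, false), (a18p,
  false), (a4n, false), (a5n, true), (a6n, true), (a7n, false), (a0p, false), (a1p, true), (a2p,
  true), (a3p, false), (a4n, true), (a5n, false), (a6n, false), (a7n, true)]

/-- Gauss diagram number 19. -/
def L19 : List (End 2) :=
  [(a21p, false), (a23n, false), (a2p, false), (a22n, true), (a20n, false), (a16p, false), (a18p,
  true), (a3p, true), (a19n, true), (a17n, false), (a16p, true), (a20n, true), (a0p, true),
  (a21p, true), (a17n, true), (a19n, false), (a23n, true), (a1p, false), (a22n, false), (a18p,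
  false), (a4n, false), (a5n, true), (a6n, true), (a7n, false), (a0p, false), (a1p, true), (a2p,
  true), (a3p, false), (a4n, true), (a5n, false), (a6n, false), (a7n, true)]

/-- Gauss diagram number 20. -/
def L20 : List (End 2) :=
  [(a21p, false), (a23n, false), (a2p, false), (a22p, false), (a20n, false), (a16p, false),
  (a18p, true), (a3p, true), (a19n, true), (a17n, false), (a16p, true), (a20n, true), (a0p,
  true), (a21p, true), (a17n, true), (a19n, false), (a23n, true), (a1p, false), (a22p, true),
  (a18p, false), (a4n, false), (a5n, true), (a6n, true), (a7n, false), (a0p, false), (a1p, true),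
  (a2p, true), (a3p, false), (a4n, true), (a5n, false), (a6n, false), (a7n, true)]

/-- Gauss diagram number 21. -/
def L21 : List (End 2) :=
  [(a21p, false), (a2p, false), (a23n, false), (a22p, false), (a20n, false), (a16p, false),
  (a18p, true), (a3p, true), (a19n, true), (a17n, false), (a16p, true), (a20n, true), (a0p,
  true), (a21p, true), (a17n, true), (a19n, false), (a1p, false), (a23n, true), (a22p, true),
  (a18p, false), (a4n, false), (a5n, true), (a6n, true), (a7n, false), (a0p, false), (a2p, true),
  (a1p, true), (a3p, false), (a4n, true), (a5n, false), (a6n, false), (a7n, true)]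

/-- Gauss diagram number 22. -/
def L22 : List (End 2) :=
  [(a21p, false), (a2p, false), (a20n, false), (a16p, false), (a18p, true), (a3p, true), (a19n,
  true), (a17n, false), (a16p, true), (a20n, true), (a0p, true), (a21p, true), (a17n, true),
  (a19n, false), (a1p, false), (a18p, false), (a4n, false), (a5n, true), (a6n, true), (a7n,
  false), (a0p, false), (a2p, true), (a1p, true), (a3p, false), (a4n, true), (a5n, false), (a6n,
  false), (a7n, true)]

/-- Gauss diagram number 23. -/
def L23 : List (End 2) :=
  [(a2p, false), (a21p, false), (a20n, false), (a16p, false), (a18p, true), (a3p, true), (a19n,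
  true), (a17n, false), (a16p, true), (a20n, true), (a21p, true), (a0p, true), (a17n, true),
  (a19n, false), (a1p, false), (a18p, false), (a4n, false), (a5n, true), (a6n, true), (a7n,
  false), (a2p, true), (a0p, false), (a1p, true), (a3p, false), (a4n, true), (a5n, false), (a6n,
  false), (a7n, true)]

/-- Gauss diagram number 24. -/
def L24 : List (End 2) :=
  [(a2p, false), (a16p, false), (a18p, true), (a3p, true), (a19n, true), (a17n, false), (a16p,
  true), (a0p, true), (a17n, true), (a19n, false), (a1p, false), (a18p, false), (a4n, false),
  (a5n, true), (a6n, true), (a7n, false), (a2p, true), (a0p, false), (a1p, true), (a3p, false),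
  (a4n, true), (a5n, false), (a6n, false), (a7n, true)]

/-- Gauss diagram number 25. -/
def L25 : List (End 2) :=
  [(a2p, false), (a16p, false), (a18p, true), (a19n, true), (a3p, true), (a17n, false), (a16p,
  true), (a0p, true), (a17n, true), (a1p, false), (a19n, false), (a18p, false), (a4n, false),
  (a5n, true), (a6n, true), (a7n, false), (a2p, true), (a0p, false), (a3p, false), (a1p, true),
  (a4n, true), (a5n, false), (a6n, false), (a7n, true)]

/-- Gauss diagram number 26. -/
def L26 : List (End 2) :=
  [(a2p, false), (a16p, false), (a3p, true), (a17n, false), (a16p, true), (a0p, true), (a17n,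
  true), (a1p, false), (a4n, false), (a5n, true), (a6n, true), (a7n, false), (a2p, true), (a0p,
  false), (a3p, false), (a1p, true), (a4n, true), (a5n, false), (a6n, false), (a7n, true)]

/-- Gauss diagram number 27. -/
def L27 : List (End 2) :=
  [(a2p, false), (a16p, false), (a17n, false), (a3p, true), (a16p, true), (a17n, true), (a0p,
  true), (a1p, false), (a4n, false), (a5n, true), (a6n, true), (a7n, false), (a2p, true), (a3p,
  false), (a0p, false), (a1p, true), (a4n, true), (a5n, false), (a6n, false), (a7n, true)]

/-- Gauss diagram number 28. -/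
def L28 : List (End 2) :=
  [(a2p, false), (a3p, true), (a0p, true), (a1p, false), (a4n, false), (a5n, true), (a6n, true),
  (a7n, false), (a2p, true), (a3p, false), (a0p, false), (a1p, true), (a4n, true), (a5n, false),
  (a6n, false), (a7n, true)]

/-- Gauss diagram number 29. -/
def L29 : List (End 2) :=
  [(a2p, false), (a3p, true), (a0p, true), (a5n, true), (a6n, true), (a7n, false), (a2p, true),
  (a3p, false), (a0p, false), (a5n, false), (a6n, false), (a7n, true)]

/-- Gauss diagram number 30. -/
def L30 : List (End 2) :=
  [(a2p, false), (a3p, true), (a6n, true), (a7n, false), (a2p, true), (a3p, false), (a6n, false),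
  (a7n, true)]

/-- Gauss diagram number 31. -/
def L31 : List (End 2) :=
  [(a2p, false), (a7n, false), (a2p, true), (a7n, true)]

/-- Gauss diagram number 32. -/
def L32 : List (End 2) :=
  []

/-- Being a Gauss diagram is decidable. -/
instance decGauss {n : ℕ} (w : List (End n)) : Decidable (IsGauss w) := by
  unfold IsGauss; infer_instance

theorem g0 : IsGauss L0 := by decide
theorem g1 : IsGauss L1 := by decide
theorem g2 : IsGauss L2 := by decide
theorem g3 : IsGauss L3 := by decide
theorem g4 : IsGauss L4 := by decide
theorem g5 : IsGauss L5 := by decide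
theorem g6 : IsGauss L6 := by decide
theorem g7 : IsGauss L7 := by decide
theorem g8 : IsGauss L8 := by decide
theorem g9 : IsGauss L9 := by decide
theorem g10 : IsGauss L10 := by decide
theorem g11 : IsGauss L11 := by decide
theorem g12 : IsGauss L12 := by decide
theorem g13 : IsGauss L13 := by decide
theorem g14 : IsGauss L14 := by decide
theorem g15 : IsGauss L15 := by decide
theorem g16 : IsGauss L16 := by decide
theorem g17 : IsGauss L17 := by decide
theorem g18 : IsGauss L18 := by decide
theorem g19 : IsGauss L19 := by decide
theorem g20 : IsGauss L20 := by decide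
theorem g21 : IsGauss L21 := by decide
theorem g22 : IsGauss L22 := by decide
theorem g23 : IsGauss L23 := by decide
theorem g24 : IsGauss L24 := by decide
theorem g25 : IsGauss L25 := by decide
theorem g26 : IsGauss L26 := by decide
theorem g27 : IsGauss L27 := by decide
theorem g28 : IsGauss L28 := by decide
theorem g29 : IsGauss L29 := by decide
theorem g30 : IsGauss L30 := by decide
theorem g31 : IsGauss L31 := by decide
theorem g32 : IsGauss L32 := by decide

/-- The moves: Reidemeister moves and self-crossing changes. -/
def VMove {n : ℕ} (v w : List (End n)) : Prop := Reidemeister v w ∨ SelfCrossingChange v w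

theorem m0 : VMove L1 L0 :=
  Or.inl (Reidemeister.r2_parallel a8p a9n rfl rfl (by decide) false
    [(a0p, true), (a1p, false), (a2p, false), (a3p, true), (a4n, false), (a5n, true), (a6n,
    true), (a7n, false), (a0p, false)]
    [(a1p, true)]
    [(a2p, true), (a3p, false), (a4n, true), (a5n, false), (a6n, false), (a7n, true)])

theorem m1 : VMove L1 L2 :=
  Or.inl (Reidemeister.r3 false a9n a2p a1p rfl rfl rfl
    ((a1p, false), (a2p, false)) ((a9n, false), (a1p, true))
    ((a9n, true), (a2p, true)) (by decide)
    [(a0p, true)]
    [(a3p, true), (a4n, false), (a5n, true), (a6n, true), (a7n, false), (a0p, false), (a8p,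
    false)]
    [(a8p, true)]
    [(a3p, false), (a4n, true), (a5n, false), (a6n, false), (a7n, true)])

theorem m2 : VMove L3 L2 :=
  Or.inl (Reidemeister.r2_opposite a10p a11n rfl rfl (by decide) true
    [(a0p, true), (a2p, false), (a1p, false), (a3p, true), (a4n, false), (a5n, true), (a6n,
    true), (a7n, false), (a0p, false), (a8p, false)]
    [(a1p, true), (a9n, false), (a8p, true), (a2p, true), (a9n, true), (a3p, false)]
    [(a4n, true), (a5n, false), (a6n, false), (a7n, true)])

theorem m3 : VMove L3 L4 :=
  Or.inl (Reidemeister.r3 true a1p a11n a3p rfl rfl rfl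
    ((a1p, false), (a3p, true)) ((a11n, true), (a1p, true))
    ((a3p, false), (a11n, false)) (by decide)
    [(a0p, true), (a2p, false)]
    [(a4n, false), (a5n, true), (a6n, true), (a7n, false), (a0p, false), (a8p, false), (a10p,
    true)]
    [(a9n, false), (a8p, true), (a2p, true), (a9n, true)]
    [(a10p, false), (a4n, true), (a5n, false), (a6n, false), (a7n, true)])

theorem m4 : VMove L5 L4 :=
  Or.inl (Reidemeister.r2_opposite a13p a12n rfl rfl (by decide) false
    [(a0p, true), (a2p, false), (a3p, true), (a1p, false), (a4n, false), (a5n, true), (a6n,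
    true), (a7n, false), (a0p, false)]
    [(a8p, false), (a10p, true), (a1p, true), (a11n, true), (a9n, false), (a8p, true)]
    [(a2p, true), (a9n, true), (a11n, false), (a3p, false), (a10p, false), (a4n, true), (a5n,
    false), (a6n, false), (a7n, true)])

theorem m5 : VMove L5 L6 :=
  Or.inl (Reidemeister.r3 false a2p a13p a0p rfl rfl rfl
    ((a0p, true), (a2p, false)) ((a0p, false), (a13p, false))
    ((a13p, true), (a2p, true)) (by decide)
    []
    [(a3p, true), (a1p, false), (a4n, false), (a5n, true), (a6n, true), (a7n, false)]
    [(a12n, false), (a8p, false), (a10p, true), (a1p, true), (a11n, true), (a9n, false), (a8p,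
    true), (a12n, true)]
    [(a9n, true), (a11n, false), (a3p, false), (a10p, false), (a4n, true), (a5n, false), (a6n,
    false), (a7n, true)])

theorem m6 : VMove L7 L6 :=
  Or.inl (Reidemeister.r2_parallel a15n a14p rfl rfl (by decide) false
    [(a2p, false), (a0p, true), (a3p, true), (a1p, false), (a4n, false), (a5n, true), (a6n,
    true), (a7n, false), (a13p, false), (a0p, false)]
    [(a12n, false), (a8p, false), (a10p, true), (a1p, true), (a11n, true), (a9n, false), (a8p,
    true), (a12n, true), (a2p, true), (a13p, true), (a9n, true), (a11n, false), (a3p, false)]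
    [(a10p, false), (a4n, true), (a5n, false), (a6n, false), (a7n, true)])

theorem m7 : VMove L7 L8 :=
  Or.inl (Reidemeister.r3 true a3p a0p a15n rfl rfl rfl
    ((a0p, true), (a3p, true)) ((a0p, false), (a15n, false))
    ((a3p, false), (a15n, true)) (by decide)
    [(a2p, false)]
    [(a1p, false), (a4n, false), (a5n, true), (a6n, true), (a7n, false), (a13p, false)]
    [(a14p, false), (a12n, false), (a8p, false), (a10p, true), (a1p, true), (a11n, true), (a9n,
    false), (a8p, true), (a12n, true), (a2p, true), (a13p, true), (a9n, true), (a11n, false)]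
    [(a14p, true), (a10p, false), (a4n, true), (a5n, false), (a6n, false), (a7n, true)])

theorem m8 : VMove L8 L9 :=
  Or.inr (SelfCrossingChange.mk a14p rfl false
    [(a2p, false), (a3p, true), (a0p, true), (a1p, false), (a4n, false), (a5n, true), (a6n,
    true), (a7n, false), (a13p, false), (a15n, false), (a0p, false)]
    [(a12n, false), (a8p, false), (a10p, true), (a1p, true), (a11n, true), (a9n, false), (a8p,
    true), (a12n, true), (a2p, true), (a13p, true), (a9n, true), (a11n, false), (a15n, true),
    (a3p, false)]
    [(a10p, false), (a4n, true), (a5n, false), (a6n, false), (a7n, true)])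

theorem m9 : VMove L9 L10 :=
  Or.inr (SelfCrossingChange.mk a11n rfl true
    [(a2p, false), (a3p, true), (a0p, true), (a1p, false), (a4n, false), (a5n, true), (a6n,
    true), (a7n, false), (a13p, false), (a15n, false), (a0p, false), (a14n, true), (a12n, false),
    (a8p, false), (a10p, true), (a1p, true)]
    [(a9n, false), (a8p, true), (a12n, true), (a2p, true), (a13p, true), (a9n, true)]
    [(a15n, true), (a3p, false), (a14n, false), (a10p, false), (a4n, true), (a5n, false), (a6n,
    false), (a7n, true)])

theorem m10 : VMove L10 L11 :=
  Or.inl (Reidemeister.r2_opposite a12n a8p rfl rfl (by decide) false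
    [(a2p, false), (a3p, true), (a0p, true), (a1p, false), (a4n, false), (a5n, true), (a6n,
    true), (a7n, false), (a13p, false), (a15n, false), (a0p, false), (a14n, true)]
    [(a10p, true), (a1p, true), (a11p, false), (a9n, false)]
    [(a2p, true), (a13p, true), (a9n, true), (a11p, true), (a15n, true), (a3p, false), (a14n,
    false), (a10p, false), (a4n, true), (a5n, false), (a6n, false), (a7n, true)])

theorem m11 : VMove L11 L12 :=
  Or.inl (Reidemeister.r2_parallel a14n a10p rfl rfl (by decide) true
    [(a2p, false), (a3p, true), (a0p, true), (a1p, false), (a4n, false), (a5n, true), (a6n,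
    true), (a7n, false), (a13p, false), (a15n, false), (a0p, false)]
    [(a1p, true), (a11p, false), (a9n, false), (a2p, true), (a13p, true), (a9n, true), (a11p,
    true), (a15n, true), (a3p, false)]
    [(a4n, true), (a5n, false), (a6n, false), (a7n, true)])

theorem m12 : VMove L12 L13 :=
  Or.inl (Reidemeister.r2_opposite a11p a9n rfl rfl (by decide) false
    [(a2p, false), (a3p, true), (a0p, true), (a1p, false), (a4n, false), (a5n, true), (a6n,
    true), (a7n, false), (a13p, false), (a15n, false), (a0p, false), (a1p, true)]
    [(a2p, true), (a13p, true)]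
    [(a15n, true), (a3p, false), (a4n, true), (a5n, false), (a6n, false), (a7n, true)])

theorem m13 : VMove L13 L14 :=
  Or.inl (Reidemeister.r2_parallel a13p a15n rfl rfl (by decide) false
    [(a2p, false), (a3p, true), (a0p, true), (a1p, false), (a4n, false), (a5n, true), (a6n,
    true), (a7n, false)]
    [(a0p, false), (a1p, true), (a2p, true)]
    [(a3p, false), (a4n, true), (a5n, false), (a6n, false), (a7n, true)])

theorem m14 : VMove L15 L14 :=
  Or.inl (Reidemeister.r2_parallel a21p a23n rfl rfl (by decide) false
    []
    [(a2p, false), (a3p, true), (a0p, true)]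
    [(a1p, false), (a4n, false), (a5n, true), (a6n, true), (a7n, false), (a0p, false), (a1p,
    true), (a2p, true), (a3p, false), (a4n, true), (a5n, false), (a6n, false), (a7n, true)])

theorem m15 : VMove L16 L15 :=
  Or.inl (Reidemeister.r2_opposite a19p a17n rfl rfl (by decide) false
    [(a21p, false), (a23n, false), (a2p, false), (a3p, true)]
    [(a0p, true), (a21p, true)]
    [(a23n, true), (a1p, false), (a4n, false), (a5n, true), (a6n, true), (a7n, false), (a0p,
    false), (a1p, true), (a2p, true), (a3p, false), (a4n, true), (a5n, false), (a6n, false),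
    (a7n, true)])

theorem m16 : VMove L17 L16 :=
  Or.inl (Reidemeister.r2_parallel a22n a18p rfl rfl (by decide) true
    [(a21p, false), (a23n, false), (a2p, false)]
    [(a3p, true), (a19p, false), (a17n, false), (a0p, true), (a21p, true), (a17n, true), (a19p,
    true), (a23n, true), (a1p, false)]
    [(a4n, false), (a5n, true), (a6n, true), (a7n, false), (a0p, false), (a1p, true), (a2p,
    true), (a3p, false), (a4n, true), (a5n, false), (a6n, false), (a7n, true)])

theorem m17 : VMove L18 L17 :=
  Or.inl (Reidemeister.r2_opposite a20n a16p rfl rfl (by decide) false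
    [(a21p, false), (a23n, false), (a2p, false), (a22n, true)]
    [(a18p, true), (a3p, true), (a19p, false), (a17n, false)]
    [(a0p, true), (a21p, true), (a17n, true), (a19p, true), (a23n, true), (a1p, false), (a22n,
    false), (a18p, false), (a4n, false), (a5n, true), (a6n, true), (a7n, false), (a0p, false),
    (a1p, true), (a2p, true), (a3p, false), (a4n, true), (a5n, false), (a6n, false), (a7n,
    true)])

theorem m18 : VMove L18 L19 :=
  Or.inr (SelfCrossingChange.mk a19p rfl false
    [(a21p, false), (a23n, false), (a2p, false), (a22n, true), (a20n, false), (a16p, false),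
    (a18p, true), (a3p, true)]
    [(a17n, false), (a16p, true), (a20n, true), (a0p, true), (a21p, true), (a17n, true)]
    [(a23n, true), (a1p, false), (a22n, false), (a18p, false), (a4n, false), (a5n, true), (a6n,
    true), (a7n, false), (a0p, false), (a1p, true), (a2p, true), (a3p, false), (a4n, true), (a5n,
    false), (a6n, false), (a7n, true)])

theorem m19 : VMove L19 L20 :=
  Or.inr (SelfCrossingChange.mk a22n rfl true
    [(a21p, false), (a23n, false), (a2p, false)]
    [(a20n, false), (a16p, false), (a18p, true), (a3p, true), (a19n, true), (a17n, false), (a16p,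
    true), (a20n, true), (a0p, true), (a21p, true), (a17n, true), (a19n, false), (a23n, true),
    (a1p, false)]
    [(a18p, false), (a4n, false), (a5n, true), (a6n, true), (a7n, false), (a0p, false), (a1p,
    true), (a2p, true), (a3p, false), (a4n, true), (a5n, false), (a6n, false), (a7n, true)])

theorem m20 : VMove L20 L21 :=
  Or.inl (Reidemeister.r3 false a1p a2p a23n rfl rfl rfl
    ((a23n, false), (a2p, false)) ((a23n, true), (a1p, false))
    ((a1p, true), (a2p, true)) (by decide)
    [(a21p, false)]
    [(a22p, false), (a20n, false), (a16p, false), (a18p, true), (a3p, true), (a19n, true), (a17n,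
    false), (a16p, true), (a20n, true), (a0p, true), (a21p, true), (a17n, true), (a19n, false)]
    [(a22p, true), (a18p, false), (a4n, false), (a5n, true), (a6n, true), (a7n, false), (a0p,
    false)]
    [(a3p, false), (a4n, true), (a5n, false), (a6n, false), (a7n, true)])

theorem m21 : VMove L21 L22 :=
  Or.inl (Reidemeister.r2_parallel a23n a22p rfl rfl (by decide) false
    [(a21p, false), (a2p, false)]
    [(a20n, false), (a16p, false), (a18p, true), (a3p, true), (a19n, true), (a17n, false), (a16p,
    true), (a20n, true), (a0p, true), (a21p, true), (a17n, true), (a19n, false), (a1p, false)]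
    [(a18p, false), (a4n, false), (a5n, true), (a6n, true), (a7n, false), (a0p, false), (a2p,
    true), (a1p, true), (a3p, false), (a4n, true), (a5n, false), (a6n, false), (a7n, true)])

theorem m22 : VMove L22 L23 :=
  Or.inl (Reidemeister.r3 true a0p a21p a2p rfl rfl rfl
    ((a21p, false), (a2p, false)) ((a0p, true), (a21p, true))
    ((a0p, false), (a2p, true)) (by decide)
    []
    [(a20n, false), (a16p, false), (a18p, true), (a3p, true), (a19n, true), (a17n, false), (a16p,
    true), (a20n, true)]
    [(a17n, true), (a19n, false), (a1p, false), (a18p, false), (a4n, false), (a5n, true), (a6n,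
    true), (a7n, false)]
    [(a1p, true), (a3p, false), (a4n, true), (a5n, false), (a6n, false), (a7n, true)])

theorem m23 : VMove L23 L24 :=
  Or.inl (Reidemeister.r2_opposite a21p a20n rfl rfl (by decide) false
    [(a2p, false)]
    [(a16p, false), (a18p, true), (a3p, true), (a19n, true), (a17n, false), (a16p, true)]
    [(a0p, true), (a17n, true), (a19n, false), (a1p, false), (a18p, false), (a4n, false), (a5n,
    true), (a6n, true), (a7n, false), (a2p, true), (a0p, false), (a1p, true), (a3p, false), (a4n,
    true), (a5n, false), (a6n, false), (a7n, true)])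

theorem m24 : VMove L24 L25 :=
  Or.inl (Reidemeister.r3 false a3p a19n a1p rfl rfl rfl
    ((a3p, true), (a19n, true)) ((a19n, false), (a1p, false))
    ((a1p, true), (a3p, false)) (by decide)
    [(a2p, false), (a16p, false), (a18p, true)]
    [(a17n, false), (a16p, true), (a0p, true), (a17n, true)]
    [(a18p, false), (a4n, false), (a5n, true), (a6n, true), (a7n, false), (a2p, true), (a0p,
    false)]
    [(a4n, true), (a5n, false), (a6n, false), (a7n, true)])

theorem m25 : VMove L25 L26 :=
  Or.inl (Reidemeister.r2_opposite a18p a19n rfl rfl (by decide) true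
    [(a2p, false), (a16p, false)]
    [(a3p, true), (a17n, false), (a16p, true), (a0p, true), (a17n, true), (a1p, false)]
    [(a4n, false), (a5n, true), (a6n, true), (a7n, false), (a2p, true), (a0p, false), (a3p,
    false), (a1p, true), (a4n, true), (a5n, false), (a6n, false), (a7n, true)])

theorem m26 : VMove L26 L27 :=
  Or.inl (Reidemeister.r3 true a17n a0p a3p rfl rfl rfl
    ((a3p, true), (a17n, false)) ((a0p, true), (a17n, true))
    ((a0p, false), (a3p, false)) (by decide)
    [(a2p, false), (a16p, false)]
    [(a16p, true)]
    [(a1p, false), (a4n, false), (a5n, true), (a6n, true), (a7n, false), (a2p, true)]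
    [(a1p, true), (a4n, true), (a5n, false), (a6n, false), (a7n, true)])

theorem m27 : VMove L27 L28 :=
  Or.inl (Reidemeister.r2_parallel a16p a17n rfl rfl (by decide) false
    [(a2p, false)]
    [(a3p, true)]
    [(a0p, true), (a1p, false), (a4n, false), (a5n, true), (a6n, true), (a7n, false), (a2p,
    true), (a3p, false), (a0p, false), (a1p, true), (a4n, true), (a5n, false), (a6n, false),
    (a7n, true)])

theorem m28 : VMove L28 L29 :=
  Or.inl (Reidemeister.r2_parallel a1p a4n rfl rfl (by decide) false
    [(a2p, false), (a3p, true), (a0p, true)]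
    [(a5n, true), (a6n, true), (a7n, false), (a2p, true), (a3p, false), (a0p, false)]
    [(a5n, false), (a6n, false), (a7n, true)])

theorem m29 : VMove L29 L30 :=
  Or.inl (Reidemeister.r2_parallel a0p a5n rfl rfl (by decide) true
    [(a2p, false), (a3p, true)]
    [(a6n, true), (a7n, false), (a2p, true), (a3p, false)]
    [(a6n, false), (a7n, true)])

theorem m30 : VMove L30 L31 :=
  Or.inl (Reidemeister.r2_parallel a3p a6n rfl rfl (by decide) true
    [(a2p, false)]
    [(a7n, false), (a2p, true)]
    [(a7n, true)])

theorem m31 : VMove L31 L32 :=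
  Or.inl (Reidemeister.r2_parallel a2p a7n rfl rfl (by decide) false
    []
    []
    [])

/-- The quotient map identifies the first and the last diagram. -/
theorem chain : (Quot.mk (fun v w : Diagram 2 => VMove v.1 w.1) ⟨L0, g0⟩) =
    Quot.mk (fun v w : Diagram 2 => VMove v.1 w.1) ⟨L32, g32⟩ := by
  have s : ∀ (v w : List (End 2)) (hv : IsGauss v) (hw : IsGauss w), VMove v w →
      (Quot.mk (fun v w : Diagram 2 => VMove v.1 w.1) ⟨v, hv⟩) =
        Quot.mk (fun v w : Diagram 2 => VMove v.1 w.1) ⟨w, hw⟩ :=
    fun v w hv hw h => Quot.sound h
  have t0 := (s L1 L0 g1 g0 m0).symm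
  have t1 := s L1 L2 g1 g2 m1
  have t2 := (s L3 L2 g3 g2 m2).symm
  have t3 := s L3 L4 g3 g4 m3
  have t4 := (s L5 L4 g5 g4 m4).symm
  have t5 := s L5 L6 g5 g6 m5
  have t6 := (s L7 L6 g7 g6 m6).symm
  have t7 := s L7 L8 g7 g8 m7
  have t8 := s L8 L9 g8 g9 m8
  have t9 := s L9 L10 g9 g10 m9
  have t10 := s L10 L11 g10 g11 m10
  have t11 := s L11 L12 g11 g12 m11
  have t12 := s L12 L13 g12 g13 m12
  have t13 := s L13 L14 g13 g14 m13
  have t14 := (s L15 L14 g15 g14 m14).symm
  have t15 := (s L16 L15 g16 g15 m15).symm
  have t16 := (s L17 L16 g17 g16 m16).symm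
  have t17 := (s L18 L17 g18 g17 m17).symm
  have t18 := s L18 L19 g18 g19 m18
  have t19 := s L19 L20 g19 g20 m19
  have t20 := s L20 L21 g20 g21 m20
  have t21 := s L21 L22 g21 g22 m21
  have t22 := s L22 L23 g22 g23 m22
  have t23 := s L23 L24 g23 g24 m23
  have t24 := s L24 L25 g24 g25 m24
  have t25 := s L25 L26 g25 g26 m25
  have t26 := s L26 L27 g26 g27 m26
  have t27 := s L27 L28 g27 g28 m27
  have t28 := s L28 L29 g28 g29 m28
  have t29 := s L29 L30 g29 g30 m29
  have t30 := s L30 L31 g30 g31 m30
  have t31 := s L31 L32 g31 g32 m31
  have u1 := (t0).trans t1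
  have u2 := (u1).trans t2
  have u3 := (u2).trans t3
  have u4 := (u3).trans t4
  have u5 := (u4).trans t5
  have u6 := (u5).trans t6
  have u7 := (u6).trans t7
  have u8 := (u7).trans t8
  have u9 := (u8).trans t9
  have u10 := (u9).trans t10
  have u11 := (u10).trans t11
  have u12 := (u11).trans t12
  have u13 := (u12).trans t13
  have u14 := (u13).trans t14
  have u15 := (u14).trans t15
  have u16 := (u15).trans t16
  have u17 := (u16).trans t17
  have u18 := (u17).trans t18
  have u19 := (u18).trans t19
  have u20 := (u19).trans t20
  have u21 := (u20).trans t21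
  have u22 := (u21).trans t22
  have u23 := (u22).trans t23
  have u24 := (u23).trans t24
  have u25 := (u24).trans t25
  have u26 := (u25).trans t26
  have u27 := (u26).trans t27
  have u28 := (u27).trans t28
  have u29 := (u28).trans t29
  have u30 := (u29).trans t30
  have u31 := (u30).trans t31
  exact u31

end Pool.Agent.V11207.SC
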